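import Pool.Agent.Run7.h893.TO.Stab
import Pool.Agent.Y123.GN.E2
import Pool.Agent.Y123.GN.C6

/-!
# Stability of the subtorsors over all number fields of bounded degree at once
-/

set_option autoImplicit false
set_option linter.unusedSectionVars false

open Matrix Module

namespace Run7.h893.NT

open Pool.Agent.TH127.PT Pool.Agent.Y123.ST Pool.Agent.Y123.GN Run7.h893.TO

section
variable {B₀ : Type} [Fintype B₀] [DecidableEq B₀] {k : ℕ} {n : Fin k → ℕ}

/-- the group of all block matrices -/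
def SG (B₀ : Type) [Fintype B₀] [DecidableEq B₀] {k : ℕ} {n : Fin k → ℕ}
    {G : ∀ i, Matrix (Fin (n i)) (Fin (n i)) ℂ → Prop} (hone : ∀ i, G i 1)
    (hmul : ∀ i a b, G i a → G i b → G i (a * b)) (hinv : ∀ i a, G i a → ∃ b, G i b ∧ a * b = 1) :
    Subgroup (Matrix (IM B₀ n) (IM B₀ n) ℂ)ˣ where
  carrier := {u | ∃ (a : Fin k → ℂ) (g : ∀ i, Matrix (Fin (n i)) (Fin (n i)) ℂ), (∀ i, G i (g i)) ∧
    (u : Matrix (IM B₀ n) (IM B₀ n) ℂ) = EM 1 (fun i => uu (a i)) g}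
  one_mem' := by
    refine ⟨0, 1, fun i => hone i, ?_⟩
    have h1 : (fun i : Fin k => uu ((0 : Fin k → ℂ) i)) = 1 := by
      funext i
      exact uu_zero
    rw [h1, EM_one, Units.val_one]
  mul_mem' := by
    rintro u v ⟨a, g, hg, hu⟩ ⟨b, h, hh, hv⟩
    refine ⟨a + b, fun i => g i * h i, fun i => hmul i _ _ (hg i) (hh i), ?_⟩
    rw [Units.val_mul, hu, hv, EM_mul, Matrix.one_mul]
    congr 1
    funext i
    exact uu_mul _ _
  inv_mem' := by
    rintro u ⟨a, g, hg, hu⟩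
    choose h hh hgh using fun i => hinv i (g i) (hg i)
    refine ⟨-a, h, hh, ?_⟩
    have h1 : (u : Matrix (IM B₀ n) (IM B₀ n) ℂ) * EM 1 (fun i => uu ((-a) i)) h = 1 := by
      rw [hu, EM_mul, Matrix.one_mul, ← EM_one]
      congr 1
      · funext i
        rw [uu_mul, Pi.neg_apply, add_neg_cancel, uu_zero]
        rfl
      · funext i
        exact hgh i
    calc ((u⁻¹ : (Matrix (IM B₀ n) (IM B₀ n) ℂ)ˣ) : Matrix (IM B₀ n) (IM B₀ n) ℂ) =
        ((u⁻¹ : (Matrix (IM B₀ n) (IM B₀ n) ℂ)ˣ) : Matrix (IM B₀ n) (IM B₀ n) ℂ) *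
          ((u : Matrix (IM B₀ n) (IM B₀ n) ℂ) * EM 1 (fun i => uu ((-a) i)) h) := by rw [h1, Matrix.mul_one]
      _ = _ := by rw [← Matrix.mul_assoc, Units.inv_mul, Matrix.one_mul]

/-- the nilpotent matrix of the Kummer parts -/
noncomputable def kq (B₀ : Type) [Fintype B₀] [DecidableEq B₀] {k : ℕ} (n : Fin k → ℕ) (a : Fin k → ℂ) :
    Matrix (IM B₀ n) (IM B₀ n) ℂ := EM 0 (fun i => !![0, a i; 0, 0]) 0

lemma kq_sq (a : Fin k → ℂ) : kq B₀ n a ^ 2 = 0 := by
  unfold kq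
  rw [sq, EM_mul, Matrix.zero_mul]
  have h1 : (fun i : Fin k => (!![0, a i; 0, 0] : Matrix (Fin 2) (Fin 2) ℂ) * !![0, a i; 0, 0]) = 0 := by
    funext i
    ext x y
    fin_cases x <;> fin_cases y <;> simp
  have h2 : (fun i : Fin k => (0 : ∀ i, Matrix (Fin (n i)) (Fin (n i)) ℂ) i * (0 : ∀ i, Matrix (Fin (n i)) (Fin (n i)) ℂ) i) = 0 := by
    funext i
    exact Matrix.zero_mul _
  rw [h1, h2]
  have h3 := EM_smul (n := n) (0 : ℂ) (0 : Matrix B₀ B₀ ℂ) 0 0
  rw [zero_smul, smul_zero, smul_zero, smul_zero] at h3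
  exact h3.symm

lemma kq_exp (a : Fin k → ℂ) (t : ℂ) : IsNilpotent.exp (t • kq B₀ n a) = EM 1 (fun i => uu (t * a i)) 1 := by
  have h1 : (t • kq B₀ n a) ^ 2 = 0 := by
    rw [smul_pow, kq_sq, smul_zero]
  rw [IsNilpotent.exp_eq_sum h1, Finset.sum_range_succ, Finset.sum_range_one]
  simp only [pow_zero, pow_one, Nat.factorial, Nat.cast_one, inv_one, one_smul, mul_one]
  unfold kq
  rw [← EM_one, EM_smul, EM_add, smul_zero, smul_zero, add_zero, add_zero]
  congr 1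
  funext i
  rw [Pi.add_apply, Pi.smul_apply]
  unfold uu
  ext x y
  fin_cases x <;> fin_cases y <;> simp

/-- all elements are products of exponentials -/
theorem mem_Ug {G : ∀ i, Matrix (Fin (n i)) (Fin (n i)) ℂ → Prop} {𝒩 : ∀ i, Set (Matrix (Fin (n i)) (Fin (n i)) ℂ)}
    (hU : ∀ i, UG (G i) (𝒩 i)) (hmul : ∀ i a b, G i a → G i b → G i (a * b))
    (hinv : ∀ i a, G i a → ∃ b, G i b ∧ a * b = 1) (a : Fin k → ℂ) (g : ∀ i, Matrix (Fin (n i)) (Fin (n i)) ℂ)
    (hg : ∀ i, G i (g i)) : ∃ u ∈ Ug (SG B₀ (fun i => (hU i).one) hmul hinv),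
      (u : Matrix (IM B₀ n) (IM B₀ n) ℂ) = EM 1 (fun i => uu (a i)) g := by
  classical
  set 𝒢 := SG B₀ (fun i => (hU i).one) hmul hinv with h𝒢
  -- units for invertible block matrices
  have hunit : ∀ (a : Fin k → ℂ) (g : ∀ i, Matrix (Fin (n i)) (Fin (n i)) ℂ), (∀ i, G i (g i)) →
      ∃ u ∈ 𝒢, (u : Matrix (IM B₀ n) (IM B₀ n) ℂ) = EM 1 (fun i => uu (a i)) g := by
    intro a g hg
    choose h hh hgh using fun i => hinv i (g i) (hg i)
    have h1 : EM (1 : Matrix B₀ B₀ ℂ) (fun i => uu (a i)) g * EM 1 (fun i => uu ((-a) i)) h = 1 := by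
      rw [EM_mul, Matrix.one_mul, ← EM_one]
      congr 1
      · funext i
        rw [uu_mul, Pi.neg_apply, add_neg_cancel, uu_zero]
        rfl
      · funext i
        exact hgh i
    have h2 : IsUnit (EM (1 : Matrix B₀ B₀ ℂ) (fun i => uu (a i)) g) := IsUnit.of_mul_eq_one _ h1
    exact ⟨h2.unit, ⟨a, g, hg, rfl⟩, rfl⟩
  let Sub : Submonoid (Matrix (IM B₀ n) (IM B₀ n) ℂ) :=
    { carrier := {M | ∃ u ∈ Ug 𝒢, (u : Matrix (IM B₀ n) (IM B₀ n) ℂ) = M}
      one_mem' := ⟨1, (Ug 𝒢).one_mem, Units.val_one⟩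
      mul_mem' := by
        rintro A B ⟨u, hu, rfl⟩ ⟨v, hv, rfl⟩
        exact ⟨u * v, (Ug 𝒢).mul_mem hu hv, Units.val_mul u v⟩ }
  have hexp : ∀ N : Matrix (IM B₀ n) (IM B₀ n) ℂ, N ∈ Nil 𝒢 → ∀ t : ℂ, IsNilpotent.exp (t • N) ∈ Sub := by
    intro N hN t
    obtain ⟨u, -, hu⟩ := hN.2 t
    exact ⟨u, Subgroup.subset_closure ⟨N, hN, t, hu⟩, hu⟩
  -- the Kummer parts
  have h1 : ∀ a : Fin k → ℂ, EM (1 : Matrix B₀ B₀ ℂ) (fun i => uu (a i)) (1 : ∀ i, Matrix (Fin (n i)) (Fin (n i)) ℂ) ∈ Sub := by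
    intro a
    have h2 := hexp (kq B₀ n a) ⟨⟨2, kq_sq a⟩, fun t => ?_⟩ 1
    · rw [kq_exp] at h2
      simpa using h2
    · obtain ⟨u, hu, hu'⟩ := hunit (fun i => t * a i) 1 fun i => (hU i).one
      exact ⟨u, hu, by rw [hu', kq_exp]⟩
  -- one block
  have h3 : ∀ (i : Fin k) (m : Matrix (Fin (n i)) (Fin (n i)) ℂ), G i m → EM (1 : Matrix B₀ B₀ ℂ) 1 (su i m) ∈ Sub := by
    intro i
    let S' : Submonoid (Matrix (Fin (n i)) (Fin (n i)) ℂ) :=
      { carrier := {A | EM (1 : Matrix B₀ B₀ ℂ) 1 (su i A) ∈ Sub}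
        one_mem' := by
          show EM (1 : Matrix B₀ B₀ ℂ) 1 (su i 1) ∈ Sub
          rw [su_one, EM_one]
          exact Sub.one_mem
        mul_mem' := by
          intro A B hA hB
          show EM (1 : Matrix B₀ B₀ ℂ) 1 (su i (A * B)) ∈ Sub
          have e1 : EM (1 : Matrix B₀ B₀ ℂ) (1 : Fin k → Matrix (Fin 2) (Fin 2) ℂ) (su i (A * B)) =
              EM 1 1 (su i A) * EM 1 1 (su i B) := by
            rw [EM_mul, su_mul, Matrix.one_mul]
            congr 1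
            funext j
            exact (Matrix.one_mul _).symm
          rw [e1]
          exact Sub.mul_mem hA hB }
    intro m hm
    refine (hU i).gen S' (fun N hN t => ?_) m hm
    show EM (1 : Matrix B₀ B₀ ℂ) 1 (su i _) ∈ Sub
    rw [← M_exp_single ((hU i).nil N hN)]
    refine hexp _ ⟨M_single_nil ((hU i).nil N hN), fun t => ?_⟩ t
    obtain ⟨u, hu, hu'⟩ := hunit 0 (su i (IsNilpotent.exp (t • N))) (fun j => by
      by_cases h : j = i
      · subst h
        rw [su_same]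
        exact (hU j).mem N hN t
      · rw [su_ne h]
        exact (hU j).one)
    refine ⟨u, hu, ?_⟩
    rw [hu', M_exp_single ((hU i).nil N hN)]
    congr 1
    funext j
    exact uu_zero
  -- all blocks
  have key : ∀ s : Finset (Fin k), EM (1 : Matrix B₀ B₀ ℂ) 1 (fun j => if j ∈ s then g j else 1) ∈ Sub := by
    intro s
    induction s using Finset.induction_on with
    | empty =>
      have e1 : (fun j => if j ∈ (∅ : Finset (Fin k)) then g j else 1) = 1 := by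
        funext j
        simp
      rw [e1, EM_one]
      exact Sub.one_mem
    | insert i s hi ih =>
      have e1 : EM (1 : Matrix B₀ B₀ ℂ) (1 : Fin k → Matrix (Fin 2) (Fin 2) ℂ) (fun j => if j ∈ insert i s then g j else 1) =
          EM 1 1 (su i (g i)) * EM 1 1 (fun j => if j ∈ s then g j else 1) := by
        rw [EM_mul, Matrix.one_mul]
        congr 1
        · funext j
          exact (Matrix.one_mul _).symm
        · funext j
          by_cases h : j = i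
          · subst h
            rw [su_same, if_pos (Finset.mem_insert_self _ _), if_neg hi, Matrix.mul_one]
          · rw [su_ne h, Matrix.one_mul]
            by_cases h' : j ∈ s
            · rw [if_pos (Finset.mem_insert_of_mem h'), if_pos h']
            · rw [if_neg (fun hh => (Finset.mem_insert.1 hh).elim h h'), if_neg h']
      rw [e1]
      exact Sub.mul_mem (h3 i _ (hg i)) ih
  have h4 := key Finset.univ
  have e1 : (fun j => if j ∈ (Finset.univ : Finset (Fin k)) then g j else 1) = g := by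
    funext j
    simp
  rw [e1] at h4
  have h5 : EM (1 : Matrix B₀ B₀ ℂ) (fun i => uu (a i)) g = EM 1 (fun i => uu (a i)) 1 * EM 1 1 g := by
    rw [EM_mul, Matrix.one_mul]
    congr 1
    · funext j
      exact (Matrix.mul_one _).symm
    · funext j
      exact (Matrix.one_mul _).symm
  rw [h5]
  exact Sub.mul_mem (h1 a) h4

end

/-- the smallest subfield (as in `Pool/Agent/Y123/GN/E7.lean`) -/
theorem bot_fin : FiniteDimensional ℚ (⊥ : Subfield ℂ) ∧ finrank ℚ (⊥ : Subfield ℂ) ≤ 1 := by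
  let f : ℚ →ₗ[ℚ] (⊥ : Subfield ℂ) := (Algebra.linearMap ℚ (⊥ : Subfield ℂ))
  have hf : Function.Surjective f := by
    rintro ⟨x, hx⟩
    have h1 := hx
    rw [Subfield.bot_eq_of_charZero] at h1
    obtain ⟨q, hq⟩ := h1
    refine ⟨q, Subtype.ext ?_⟩
    show ((algebraMap ℚ (⊥ : Subfield ℂ) q : (⊥ : Subfield ℂ)) : ℂ) = x
    refine Eq.trans ?_ hq
    rw [eq_ratCast, eq_ratCast]
    rfl
  refine ⟨Module.Finite.of_surjective f hf, ?_⟩
  have h2 := LinearMap.finrank_le_finrank_of_surjective hf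
  rwa [Module.finrank_self] at h2

/-- **Stability over all number fields of degree at most `D` at once.** -/
theorem stabK (m D : ℕ) : ∃ d : ℕ, ∀ (B₀ : Type) [Fintype B₀] [DecidableEq B₀] (k : ℕ) (n : Fin k → ℕ),
    Fintype.card (IM B₀ n) ≤ m → ∀ (c₀ : Matrix B₀ B₀ ℂ) (l : Fin k → ℂ)
      (c : ∀ i, Matrix (Fin (n i)) (Fin (n i)) ℂ) (G : ∀ i, Matrix (Fin (n i)) (Fin (n i)) ℂ → Prop)
      (𝒩 : ∀ i, Set (Matrix (Fin (n i)) (Fin (n i)) ℂ)), IsUnit c₀ →
    (∀ i, IsUnit (c i)) → (∀ i, UG (G i) (𝒩 i)) → (∀ i a b, G i a → G i b → G i (a * b)) →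
    (∀ i a, G i a → ∃ b, G i b ∧ a * b = 1) →
    (∀ (a : Fin k → ℂ) (g : ∀ i, Matrix (Fin (n i)) (Fin (n i)) ℂ), (∀ i, G i (g i)) →
      Rl ⊥ d (EM c₀ (fun i => kum (l i) tpi) c) (EM c₀ (fun i => kum (l i + a i * tpi) tpi) fun i => g i * c i)) →
    ∀ K : Subfield ℂ, FiniteDimensional ℚ K → finrank ℚ K ≤ D →
    ∀ T : Set (Matrix (IM B₀ n) (IM B₀ n) ℂ), IsSubtorsor K T → EM c₀ (fun i => kum (l i) tpi) c ∈ T →
    ∀ (a : Fin k → ℂ) (g : ∀ i, Matrix (Fin (n i)) (Fin (n i)) ℂ), (∀ i, G i (g i)) →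
      ∀ x ∈ T, EM 1 (fun i => uu (a i)) g * x ∈ T := by
  classical
  obtain ⟨d, hd⟩ := stab' m
  refine ⟨d * D ^ D, ?_⟩
  intro B₀ _ _ k n hm c₀ l c G 𝒩 hc₀ hc hU hmul hinv hR K hKf hKD T hT hcT
  have hKalg : ∀ x ∈ K, IsAlgebraic ℚ x := by
    intro x hx
    have h6 : IsAlgebraic ℚ (⟨x, hx⟩ : K) := Algebra.IsAlgebraic.isAlgebraic _
    exact h6.algebraMap (A := ℂ)
  have hKc : (K : Set ℂ).Countable := by
    have h1 : ({x : ℂ | IsAlgebraic ℚ x} : Set ℂ).Countable := Algebraic.countable ℚ ℂ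
    exact h1.mono fun x hx => hKalg x hx
  have hact : ∀ (a : Fin k → ℂ) (g : ∀ i, Matrix (Fin (n i)) (Fin (n i)) ℂ),
      EM (1 : Matrix B₀ B₀ ℂ) (fun i => uu (a i)) g * EM c₀ (fun i => kum (l i) tpi) c =
        EM c₀ (fun i => kum (l i + a i * tpi) tpi) fun i => g i * c i := by
    intro a g
    rw [EM_mul, Matrix.one_mul]
    congr 1
    funext i
    exact uu_kum _ _ _
  refine hd B₀ k n hm K hKc T c₀ l tpi c G 𝒩 hT hc₀ (tpi_tr hKalg) hc hU hcT fun a g hg => ?_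
  obtain ⟨u, hu, hu'⟩ := mem_Ug (B₀ := B₀) hU hmul hinv a g hg
  have h1 := Rl_all (K := K) (D := D) (d := d) (c := EM c₀ (fun i => kum (l i) tpi) c) hKf hKD (fun v hv => by
    obtain ⟨b, h, hh, hv'⟩ := Ug_le _ hv
    rw [hv', hact]
    exact hR b h hh) hu
  rw [hu', hact] at h1
  exact h1

end Run7.h893.NT
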