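import Pool.Agent.Run7.h893.NT.Blk
import Pool.Agent.Run7.h893.NT.Unif
import Pool.Agent.Run7.h893.TO.Hyp

/-!
# Normal functions of self-dual hypergeometric motives: all subtorsors are stable, for almost all tuples of fibres
-/

set_option autoImplicit false
set_option linter.unusedSectionVars false

open Matrix

namespace Run7.h893.NT

open Pool.Agent.TH127.PT Pool.Agent.Y123.ST Pool.Agent.Y123.SR Pool.Agent.Y113 Pool.Agent.Y113.GG Pool.Agent.Y123.GN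
open Pool.Agent.Y119.HZ (Jx pw Yt)
open Pool.Agent.Y119.HY (cm Am E)
open Run7.h893.HO Run7.h893.NF Run7.h893.TO

lemma E_small {q : ℕ} (hq : q ≤ 1) (s : ℂ) : E (cm (Am q)) s = 1 := by
  ext i j
  rw [E_Am]
  unfold ee
  have h1 : i = j := Fin.ext (by omega)
  subst h1
  simp

/-- the upper right block -/
noncomputable def Uv (n q : ℕ) (Q : Polynomial ℚ) (t : ℕ) : Matrix (Fin n) (Fin q) ℂ :=
  Matrix.of fun i j => Yv n q Q t (Fin.castAdd q i) (Fin.natAdd n j)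

lemma Yv_bk {n q : ℕ} (hq : q ≤ 1) (Q : Polynomial ℚ) (t : ℕ) : Yv n q Q t = bk (Yt n Q t) (Uv n q Q t) 0 1 := by
  ext i j
  refine Fin.addCases (fun i => ?_) (fun i => ?_) i <;> refine Fin.addCases (fun j => ?_) (fun j => ?_) j
  · rw [bk_cc]
    unfold Yv
    rw [Hx_bk, Ex_bk, bk_mul, bk_cc, Matrix.mul_zero, add_zero]
    rfl
  · rw [bk_cn]
    rfl
  · rw [bk_nc]
    unfold Yv
    rw [Hx_bk, Ex_bk, bk_mul, bk_nc]
    simp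
  · rw [bk_nn]
    unfold Yv
    rw [Hx_bk, Ex_bk, bk_mul, bk_nn, E_small hq]
    simp

lemma bk_det {n q : ℕ} (A : Matrix (Fin n) (Fin n) ℂ) (B : Matrix (Fin n) (Fin q) ℂ) (D : Matrix (Fin q) (Fin q) ℂ) :
    (bk A B 0 D).det = A.det * D.det := by
  unfold bk
  rw [det_submatrix_equiv_self, det_fromBlocks_zero₂₁]

section
variable {B₀ : Type} [Fintype B₀] [DecidableEq B₀] {k : ℕ} {n q : Fin k → ℕ} {K : Subfield ℂ}

/-- the period matrices of the fibres -/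
noncomputable def cX (Q : Fin k → Polynomial ℚ) (Ω : ∀ i, Matrix (Fin (n i)) (Fin (n i)) ℂ)
    (w : ∀ i, Matrix (Fin (n i)) (Fin (q i)) ℂ) (a : ∀ i, Matrix (Fin (q i)) (Fin (q i)) ℂ) (t : Fin k → ℕ) (i : Fin k) :
    Matrix (Fin (n i + q i)) (Fin (n i + q i)) ℂ := (Yv (n i) (q i) (Q i) (t i) * bk (Ω i) (w i) 0 (a i))ᵀ

/-- the groups -/
def GX (P : ∀ i, Matrix (Fin (n i)) (Fin (n i)) ℂ) (q : Fin k → ℕ) (i : Fin k)
    (m : Matrix (Fin (n i + q i)) (Fin (n i + q i)) ℂ) : Prop :=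
  ∃ (g : Matrix (Fin (n i)) (Fin (n i)) ℂ) (x : Matrix (Fin (q i)) (Fin (n i)) ℂ), SI (P i) g ∧ m = bk g 0 x 1

variable {Q : Fin k → Polynomial ℚ} {J0 : ∀ i, Matrix (Fin (n i)) (Fin (n i)) ℂ} {B : ∀ i, ℂ → Matrix (Fin (n i)) (Fin (n i)) ℂ}

theorem cX_unit (hQ : ∀ i, Fam (n i) (Q i) (J0 i) (B i)) (hq : ∀ i, q i ≤ 1) {Ω : ∀ i, Matrix (Fin (n i)) (Fin (n i)) ℂ}
    (hΩ : ∀ i, IsUnit (Ω i)) (w : ∀ i, Matrix (Fin (n i)) (Fin (q i)) ℂ) {a : ∀ i, Matrix (Fin (q i)) (Fin (q i)) ℂ}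
    (ha : ∀ i, IsUnit (a i)) {t : Fin k → ℕ} (ht : ∀ i, 2 ≤ t i) (i : Fin k) : IsUnit (cX Q Ω w a t i) := by
  have h1 := cM_unit' hQ hΩ ht i
  rw [Matrix.isUnit_iff_isUnit_det] at h1 ⊢
  unfold cM at h1
  unfold cX
  rw [det_transpose] at h1 ⊢
  rw [Yv_bk (hq i), bk_mul]
  simp only [Matrix.zero_mul, zero_add, Matrix.mul_zero, add_zero, Matrix.one_mul]
  rw [bk_det]
  exact h1.mul ((Matrix.isUnit_iff_isUnit_det _).1 (ha i))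

/-- the subtorsors over all number fields of degree at most `D` are stable -/
def StaX (D : ℕ) (c₀ : Matrix B₀ B₀ ℂ) (Q : Fin k → Polynomial ℚ) (J0 : ∀ i, Matrix (Fin (n i)) (Fin (n i)) ℂ)
    (Ω : ∀ i, Matrix (Fin (n i)) (Fin (n i)) ℂ) (w : ∀ i, Matrix (Fin (n i)) (Fin (q i)) ℂ)
    (a : ∀ i, Matrix (Fin (q i)) (Fin (q i)) ℂ) (t : Fin k → ℕ) : Prop :=
  ∀ K : Subfield ℂ, FiniteDimensional ℚ K → Module.finrank ℚ K ≤ D →
  ∀ T : Set (Matrix (IM B₀ fun i => n i + q i) (IM B₀ fun i => n i + q i) ℂ), IsSubtorsor K T →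
    EM c₀ (fun i => kum ((Real.log (t i) : ℝ) : ℂ) tpi) (cX Q Ω w a t) ∈ T →
    ∀ (u : Fin k → ℂ) (g : ∀ i, Matrix (Fin (n i)) (Fin (n i)) ℂ) (x : ∀ i, Matrix (Fin (q i)) (Fin (n i)) ℂ),
      (∀ i, SI (PO J0 Ω i) (g i)) →
      ∀ X ∈ T, EM 1 (fun i => uu (u i)) (fun i => bk (g i) 0 (x i) 1) * X ∈ T

theorem SI_mul {m : ℕ} {P g h : Matrix (Fin m) (Fin m) ℂ} (hg : SI P g) (hh : SI P h) : SI P (g * h) := by
  refine ⟨?_, by rw [det_mul, hg.2, hh.2, one_mul]⟩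
  calc g * h * P * (g * h)ᵀ = g * (h * P * hᵀ) * gᵀ := by
        rw [transpose_mul]
        simp only [Matrix.mul_assoc]
    _ = P := by rw [hh.1, hg.1]

theorem SI_inv {m : ℕ} {P g : Matrix (Fin m) (Fin m) ℂ} (hg : SI P g) : SI P g⁻¹ ∧ g * g⁻¹ = 1 := by
  have hd : IsUnit g.det := by rw [hg.2]; exact isUnit_one
  have h1 : g * g⁻¹ = 1 := mul_nonsing_inv _ hd
  have h2 : g⁻¹ * g = 1 := nonsing_inv_mul _ hd
  refine ⟨⟨?_, ?_⟩, h1⟩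
  · have h3 : gᵀ * (g⁻¹)ᵀ = 1 := by rw [← transpose_mul, h2, transpose_one]
    calc g⁻¹ * P * (g⁻¹)ᵀ = g⁻¹ * (g * P * gᵀ) * (g⁻¹)ᵀ := by rw [hg.1]
      _ = (g⁻¹ * g) * P * (gᵀ * (g⁻¹)ᵀ) := by simp only [Matrix.mul_assoc]
      _ = P := by rw [h2, h3, Matrix.one_mul, Matrix.mul_one]
  · have h4 := congrArg Matrix.det h1
    rw [det_mul, hg.2, one_mul, det_one] at h4
    exact h4

theorem GX_mul {P : ∀ i, Matrix (Fin (n i)) (Fin (n i)) ℂ} (i : Fin k) (a b : Matrix (Fin (n i + q i)) (Fin (n i + q i)) ℂ)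
    (ha : GX P q i a) (hb : GX P q i b) : GX P q i (a * b) := by
  obtain ⟨g, x, hg, rfl⟩ := ha
  obtain ⟨h, y, hh, rfl⟩ := hb
  refine ⟨g * h, x * h + y, SI_mul hg hh, ?_⟩
  rw [bk_mul]
  simp

theorem GX_inv {P : ∀ i, Matrix (Fin (n i)) (Fin (n i)) ℂ} (i : Fin k) (a : Matrix (Fin (n i + q i)) (Fin (n i + q i)) ℂ)
    (ha : GX P q i a) : ∃ b, GX P q i b ∧ a * b = 1 := by
  obtain ⟨g, x, hg, rfl⟩ := ha
  obtain ⟨h1, h2⟩ := SI_inv hg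
  refine ⟨bk g⁻¹ 0 (-(x * g⁻¹)) 1, ⟨_, _, h1, rfl⟩, ?_⟩
  rw [bk_mul, ← bk_one]
  congr 1
  · rw [Matrix.zero_mul, add_zero, h2]
  · simp
  · simp
  · simp

end

/-- **All subtorsors are stable under the semidirect products, for almost all tuples.** -/
theorem hyp_stab_x (k D r : ℕ) (n q : Fin k → ℕ) (hq : ∀ i, q i ≤ 1) (Q : Fin k → Polynomial ℚ)
    (J0 : ∀ i, Matrix (Fin (n i)) (Fin (n i)) ℂ)
    (B : ∀ i, ℂ → Matrix (Fin (n i)) (Fin (n i)) ℂ) (hQ : ∀ i, FamW (n i) (q i) (Q i) (J0 i) (B i))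
    (hJ : ∀ i, (J0 i)ᵀ = -J0 i ∨ ((J0 i)ᵀ = J0 i ∧ 3 ≤ n i)) :
    ∃ c C : ℝ, 0 < c ∧ 0 ≤ C ∧
      ∀ (B₀ : Type) [Fintype B₀] [DecidableEq B₀] (c₀ : Matrix B₀ B₀ ℂ), Fintype.card B₀ ≤ r → IsUnit c₀ →
      ∀ Ω : (∀ i, Matrix (Fin (n i)) (Fin (n i)) ℂ), (∀ i, IsUnit (Ω i)) →
      ∀ (w : ∀ i, Matrix (Fin (n i)) (Fin (q i)) ℂ) (a : ∀ i, Matrix (Fin (q i)) (Fin (q i)) ℂ), (∀ i, IsUnit (a i)) →
      ∀ (x : Fin k → ℕ) (N : ℕ), (∀ i, 1 ≤ x i) →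
      1 ≤ N → ∀ S : Finset (Fin k → ℕ), (∀ t ∈ S, (∀ i, x i < t i ∧ t i ≤ x i + N) ∧ ¬ StaX D c₀ Q J0 Ω w a t) →
      (S.card : ℝ) ≤ C * (N : ℝ) ^ (k - 1) * ∑ i, (1 + N / ((x i : ℝ) + N) ^ c) := by
  classical
  have hQ0 : ∀ i, Fam (n i) (Q i) (J0 i) (B i) := fun i => (hQ i).toFam
  obtain ⟨d, hd⟩ := stabK (r + ∑ i, (2 + (n i + q i))) D
  obtain ⟨c, C, hc, hC, hmain⟩ := tuples_x k d ((1 + (r * r + 1) + 1) ^ (d + 1)) n q Q J0 B hQ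
  refine ⟨c, C, hc, hC, ?_⟩
  intro B₀ _ _ c₀ hr hc₀ Ω hΩ w a ha x N hx hN S hS
  obtain ⟨hbf, hb1⟩ := bot_fin
  obtain ⟨W, hW1, hW2, hKW, hW3⟩ := exists_W' (⊥ : Subfield ℂ) (fun o : Option (B₀ × B₀) => o.elim tpi fun b => c₀ b.1 b.2)
  obtain ⟨hp1, hp2⟩ := finrank_pow_le W (d + 1)
  have hWD : Module.finrank ℚ W ≤ 1 + (r * r + 1) + 1 := by
    refine hW2.trans ?_
    rw [Fintype.card_option, Fintype.card_prod]
    have := Nat.mul_le_mul hr hr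
    omega
  have hUG : ∀ i, ∃ 𝒩, UG (GX (PO J0 Ω) q i) 𝒩 := by
    intro i
    have hdet := PO_det hQ0 hΩ i
    rcases hJ i with h | ⟨h, h3⟩
    · have hP : (PO J0 Ω i)ᵀ = -PO J0 Ω i := by
        unfold PO
        rw [transpose_mul, transpose_mul, transpose_transpose, h, Matrix.neg_mul, Matrix.mul_neg, Matrix.mul_assoc]
      exact ⟨_, UG.mixed (UG.skew hP hdet) (faith_skew hdet) (q i)⟩
    · have hP : (PO J0 Ω i)ᵀ = PO J0 Ω i := by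
        unfold PO
        rw [transpose_mul, transpose_mul, transpose_transpose, h, Matrix.mul_assoc]
      exact ⟨_, UG.mixed (UG.symm hP hdet h3) (faith_symm (inv_symm hP) (inv_det hdet) h3) (q i)⟩
  choose 𝒩 h𝒩 using hUG
  refine hmain (W ^ (d + 1)) (hp2.trans (Nat.pow_le_pow_left hWD _)) (fun i => bk (Ω i) (w i) 0 (a i)) x N hx hN S
    fun t ht => ?_
  obtain ⟨hbox, hSt⟩ := hS t ht
  refine ⟨hbox, ?_⟩
  by_contra hcon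
  apply hSt
  have ht2 : ∀ i, 2 ≤ t i := fun i => by
    have := (hbox i).1
    have := hx i
    omega
  intro K hKf hKD T hT hcT u₀ g₀ x₀ hg₀
  refine hd B₀ k (fun i => n i + q i) ?_ c₀ _ (cX Q Ω w a t) (GX (PO J0 Ω) q) 𝒩 hc₀
    (cX_unit hQ0 hq hΩ w ha ht2) h𝒩 GX_mul GX_inv ?_ K hKf hKD T hT hcT u₀ _ (fun i => ⟨g₀ i, x₀ i, hg₀ i, rfl⟩)
  · rw [card_IM]
    exact Nat.add_le_add_right hr _
  · intro u gt hgt
    choose g y hg hgy using hgt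
    have hgt' : gt = fun i => bk (g i) 0 (y i) 1 := funext hgy
    subst hgt'
    have hΩi : ∀ i, (Ω i)⁻¹ * Ω i = 1 := fun i => nonsing_inv_mul _ ((Matrix.isUnit_iff_isUnit_det _).1 (hΩ i))
    have hΩi' : ∀ i, Ω i * (Ω i)⁻¹ = 1 := fun i => mul_nonsing_inv _ ((Matrix.isUnit_iff_isUnit_det _).1 (hΩ i))
    have hai : ∀ i, (a i)⁻¹ * a i = 1 := fun i => nonsing_inv_mul _ ((Matrix.isUnit_iff_isUnit_det _).1 (ha i))
    set G : ∀ i, Matrix (Fin (n i)) (Fin (n i)) ℂ := fun i => Yt (n i) (Q i) (t i) * Ω i * (g i)ᵀ * (Ω i)⁻¹ with hG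
    set z : ∀ i, Matrix (Fin (n i)) (Fin (q i)) ℂ := fun i => (Yt (n i) (Q i) (t i) * Ω i * (y i)ᵀ +
      (Yt (n i) (Q i) (t i) * w i + Uv (n i) (q i) (Q i) (t i) * a i) - G i * w i) * (a i)⁻¹ with hz
    have hkey : ∀ i, Yv (n i) (q i) (Q i) (t i) * bk (Ω i) (w i) 0 (a i) * (bk (g i) 0 (y i) 1)ᵀ =
        bk (G i) (z i) 0 1 * bk (Ω i) (w i) 0 (a i) := by
      intro i
      rw [Yv_bk (hq i), bk_transpose, bk_mul, bk_mul, bk_mul]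
      have e1 : G i * Ω i = Yt (n i) (Q i) (t i) * Ω i * (g i)ᵀ := by
        rw [hG]
        show Yt (n i) (Q i) (t i) * Ω i * (g i)ᵀ * (Ω i)⁻¹ * Ω i = _
        rw [Matrix.mul_assoc _ (Ω i)⁻¹, hΩi, Matrix.mul_one]
      have e2 : G i * w i + z i * a i = Yt (n i) (Q i) (t i) * Ω i * (y i)ᵀ +
          (Yt (n i) (Q i) (t i) * w i + Uv (n i) (q i) (Q i) (t i) * a i) := by
        rw [hz]
        show G i * w i + (Yt (n i) (Q i) (t i) * Ω i * (y i)ᵀ +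
          (Yt (n i) (Q i) (t i) * w i + Uv (n i) (q i) (Q i) (t i) * a i) - G i * w i) * (a i)⁻¹ * a i = _
        rw [Matrix.mul_assoc _ (a i)⁻¹, hai, Matrix.mul_one]
        abel
      rw [e1, e2]
      simp
    have hgc : (fun i => (fun i => bk (g i) 0 (y i) 1) i * cX Q Ω w a t i) =
        fun i => (bk (G i) (z i) 0 1 * bk (Ω i) (w i) 0 (a i))ᵀ := by
      funext i
      rw [← hkey, transpose_mul _ (bk (g i) 0 (y i) 1)ᵀ, transpose_transpose]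
      rfl
    rw [hgc]
    have hcX : cX Q Ω w a t = fun i => (Yv (n i) (q i) (Q i) (t i) * bk (Ω i) (w i) 0 (a i))ᵀ := rfl
    rw [hcX]
    refine Rl_of hKW (PhiM_DC (hKW 1 (⊥ : Subfield ℂ).one_mem) (fun a b => hW3 (some (a, b))) (hW3 none)) (y := pw (fun i => ((Real.log (t i) : ℝ) : ℂ))
      fun i => Yv (n i) (q i) (Q i) (t i) * bk (Ω i) (w i) 0 (a i)) (y' := pw (fun i => ((Real.log (t i) : ℝ) : ℂ) + u i * tpi)
      fun i => bk (G i) (z i) 0 1 * bk (Ω i) (w i) 0 (a i)) ?_ (fun b => PhiM_eval c₀ tpi _ _ b) (fun b => PhiM_eval c₀ tpi _ _ b)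
    intro P hPd hPV hP0
    by_contra hne
    refine hcon ⟨P, hPd, hPV, hP0, fun i => ((Real.log (t i) : ℝ) : ℂ) + u i * tpi, G, z, fun i => ?_, ?_⟩
    · have hiso : (g i)ᵀᵀ = g i := transpose_transpose _
      have hPi := (hg i).1
      unfold PO at hPi
      have e1 : (Yt (n i) (Q i) (t i) * Ω i * (g i)ᵀ * (Ω i)⁻¹)ᵀ = ((Ω i)⁻¹)ᵀ * (g i * ((Ω i)ᵀ * (Yt (n i) (Q i) (t i))ᵀ)) := by
        rw [transpose_mul, transpose_mul, transpose_mul, hiso]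
      have e2 : ((Ω i)⁻¹)ᵀ * (Ω i)ᵀ = 1 := by rw [← transpose_mul, hΩi', transpose_one]
      rw [hG]
      show (Yt (n i) (Q i) (t i) * Ω i * (g i)ᵀ * (Ω i)⁻¹)ᵀ * B i (((1 / (t i : ℝ) : ℝ)) : ℂ) *
            (Yt (n i) (Q i) (t i) * Ω i * (g i)ᵀ * (Ω i)⁻¹) = J0 i
      rw [e1]
      calc ((Ω i)⁻¹)ᵀ * (g i * ((Ω i)ᵀ * (Yt (n i) (Q i) (t i))ᵀ)) * B i (((1 / (t i : ℝ) : ℝ)) : ℂ) *
            (Yt (n i) (Q i) (t i) * Ω i * (g i)ᵀ * (Ω i)⁻¹) =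
          ((Ω i)⁻¹)ᵀ * (g i * ((Ω i)ᵀ * ((Yt (n i) (Q i) (t i))ᵀ * B i (((1 / (t i : ℝ) : ℝ)) : ℂ) *
            Yt (n i) (Q i) (t i)) * Ω i) * (g i)ᵀ) * (Ω i)⁻¹ := by simp only [Matrix.mul_assoc]
        _ = (((Ω i)⁻¹)ᵀ * (Ω i)ᵀ) * J0 i * (Ω i * (Ω i)⁻¹) := by
            rw [(hQ0 i).Yt_form (ht2 i), hPi]
            simp only [Matrix.mul_assoc]
        _ = J0 i := by rw [e2, hΩi', Matrix.one_mul, Matrix.mul_one]
    · have h5 : (fun i => bk (G i) (z i) 0 (E (cm (Am (q i))) (-(((Real.log (t i) : ℝ) : ℂ) + u i * tpi))) *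
          bk (Ω i) (w i) 0 (a i)) = fun i => bk (G i) (z i) 0 1 * bk (Ω i) (w i) 0 (a i) := by
        funext i
        rw [E_small (hq i)]
      rw [h5]
      exact hne

end Run7.h893.NT
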