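import Pool.Agent.Run7.h893.TO.Stab
import Pool.Agent.Run7.h893.NF.Tup

/-!
# Semidirect products with vector groups: perfect sets of nilpotent matrices
-/

set_option autoImplicit false

open Matrix Pool.Agent.Y119.HY

namespace Run7.h893.NT

open Run7.h893.HO Run7.h893.NF Run7.h893.TO Pool.Agent.Y123.GN

variable {n q : ℕ}

lemma bk_zero : bk (0 : Matrix (Fin n) (Fin n) ℂ) 0 0 (0 : Matrix (Fin q) (Fin q) ℂ) = 0 := by
  unfold bk
  rw [fromBlocks_zero]
  rfl

/-- diagonal block matrices as a ring homomorphism -/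
def Dh (n q : ℕ) : (Matrix (Fin n) (Fin n) ℂ × Matrix (Fin q) (Fin q) ℂ) →+* Matrix (Fin (n + q)) (Fin (n + q)) ℂ where
  toFun x := bk x.1 0 0 x.2
  map_one' := bk_one
  map_mul' x y := by
    rw [bk_mul]
    simp
  map_zero' := bk_zero
  map_add' x y := by
    rw [bk_add]
    simp

lemma pair_nil {N : Matrix (Fin n) (Fin n) ℂ} (hN : IsNilpotent N) :
    IsNilpotent ((N, 0) : Matrix (Fin n) (Fin n) ℂ × Matrix (Fin q) (Fin q) ℂ) := by
  obtain ⟨m, hm⟩ := hN
  refine ⟨m + 1, ?_⟩
  rw [Prod.pow_mk, pow_succ, hm, zero_mul, pow_succ, mul_zero]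
  rfl

lemma bk_nil {N : Matrix (Fin n) (Fin n) ℂ} (hN : IsNilpotent N) : IsNilpotent (bk N 0 0 (0 : Matrix (Fin q) (Fin q) ℂ)) :=
  (pair_nil hN).map (Dh n q)

lemma bk_exp {N : Matrix (Fin n) (Fin n) ℂ} (hN : IsNilpotent N) (t : ℂ) :
    IsNilpotent.exp (t • bk N 0 0 (0 : Matrix (Fin q) (Fin q) ℂ)) = bk (IsNilpotent.exp (t • N)) 0 0 1 := by
  have h1 : t • bk N 0 0 (0 : Matrix (Fin q) (Fin q) ℂ) = Dh n q (t • N, 0) := by
    show _ = bk (t • N) 0 0 0
    rw [bk_smul, smul_zero, smul_zero, smul_zero]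
  have hn := pair_nil (q := q) (hN.smul t)
  rw [h1, ← IsNilpotent.map_exp hn (Dh n q)]
  set e := IsNilpotent.exp ((t • N, 0) : Matrix (Fin n) (Fin n) ℂ × Matrix (Fin q) (Fin q) ℂ) with he
  have h2 : e.1 = IsNilpotent.exp (t • N) :=
    IsNilpotent.map_exp hn (RingHom.fst (Matrix (Fin n) (Fin n) ℂ) (Matrix (Fin q) (Fin q) ℂ))
  have h3 : e.2 = 1 := by
    have h4 := IsNilpotent.map_exp hn (RingHom.snd (Matrix (Fin n) (Fin n) ℂ) (Matrix (Fin q) (Fin q) ℂ))
    have h5 : RingHom.snd (Matrix (Fin n) (Fin n) ℂ) (Matrix (Fin q) (Fin q) ℂ) (t • N, 0) = 0 := rfl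
    rw [h5, IsNilpotent.exp_zero] at h4
    exact h4
  show bk e.1 0 0 e.2 = _
  rw [h2, h3]

lemma lo_sq (x : Matrix (Fin q) (Fin n) ℂ) : bk (0 : Matrix (Fin n) (Fin n) ℂ) 0 x 0 ^ 2 = 0 := by
  rw [sq, bk_mul]
  simp only [Matrix.mul_zero, Matrix.zero_mul, add_zero]
  exact bk_zero

lemma lo_exp (x : Matrix (Fin q) (Fin n) ℂ) (t : ℂ) :
    IsNilpotent.exp (t • bk (0 : Matrix (Fin n) (Fin n) ℂ) 0 x 0) = bk 1 0 (t • x) 1 := by
  have h1 : (t • bk (0 : Matrix (Fin n) (Fin n) ℂ) 0 x 0) ^ 2 = 0 := by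
    rw [smul_pow, lo_sq, smul_zero]
  rw [IsNilpotent.exp_eq_sum h1, Finset.sum_range_succ, Finset.sum_range_one]
  simp only [pow_zero, pow_one, Nat.factorial, Nat.cast_one, inv_one, one_smul, mul_one, zero_add]
  rw [← bk_one, bk_smul, bk_add]
  simp

/-- one row -/
def row1 (j : Fin q) (ρ : Fin n → ℂ) : Matrix (Fin q) (Fin n) ℂ := Matrix.of fun i b => if i = j then ρ b else 0

lemma row1_vecMul (j : Fin q) (ρ : Fin n → ℂ) (N : Matrix (Fin n) (Fin n) ℂ) : row1 j (ρ ᵥ* N) = row1 j ρ * N := by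
  ext i b
  unfold row1
  rw [Matrix.of_apply, Matrix.mul_apply]
  simp only [Matrix.of_apply]
  split_ifs
  · rfl
  · simp

lemma sum_row1 (x : Matrix (Fin q) (Fin n) ℂ) : x = ∑ j, row1 j (x j) := by
  ext i b
  rw [Matrix.sum_apply, Finset.sum_eq_single i]
  · unfold row1
    rw [Matrix.of_apply, if_pos rfl]
  · intro j _ hj
    unfold row1
    rw [Matrix.of_apply, if_neg (Ne.symm hj)]
  · intro h
    exact absurd (Finset.mem_univ _) h

/-- **semidirect products** -/
theorem UG.mixed {G : Matrix (Fin n) (Fin n) ℂ → Prop} {𝒩 : Set (Matrix (Fin n) (Fin n) ℂ)} (h : UG G 𝒩)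
    (hf : ∀ z : Fin n → ℂ, (∀ N ∈ 𝒩, N *ᵥ z = 0) → z = 0) (q : ℕ) :
    UG (fun m : Matrix (Fin (n + q)) (Fin (n + q)) ℂ => ∃ (g : Matrix (Fin n) (Fin n) ℂ) (x : Matrix (Fin q) (Fin n) ℂ),
      G g ∧ m = bk g 0 x 1)
      ({M | ∃ N ∈ 𝒩, M = bk N 0 0 0} ∪ {M | ∃ x : Matrix (Fin q) (Fin n) ℂ, M = bk 0 0 x 0}) := by
  refine ⟨⟨1, 0, h.one, bk_one.symm⟩, ?_, ?_, ?_, ?_⟩
  · rintro _ (⟨N, hN, rfl⟩ | ⟨x, rfl⟩)
    · exact bk_nil (h.nil N hN)
    · exact ⟨2, lo_sq x⟩
  · rintro _ (⟨N, hN, rfl⟩ | ⟨x, rfl⟩) t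
    · exact ⟨_, 0, h.mem N hN t, bk_exp (h.nil N hN) t⟩
    · exact ⟨1, t • x, h.one, lo_exp x t⟩
  · rintro _ (⟨N, hN, rfl⟩ | ⟨x, rfl⟩)
    · -- the linear map
      let φ : Matrix (Fin n) (Fin n) ℂ →ₗ[ℂ] Matrix (Fin (n + q)) (Fin (n + q)) ℂ :=
        { toFun := fun N => bk N 0 0 0
          map_add' := fun a b => by rw [bk_add]; simp
          map_smul' := fun c a => by rw [RingHom.id_apply, bk_smul]; simp }
      have h3 := Submodule.mem_map_of_mem (f := φ) (h.perf N hN)
      rw [Submodule.map_span] at h3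
      refine Submodule.span_mono ?_ h3
      rintro _ ⟨_, ⟨A, hA, B, hB, rfl⟩, rfl⟩
      refine ⟨_, Or.inl ⟨A, hA, rfl⟩, _, Or.inl ⟨B, hB, rfl⟩, ?_⟩
      show bk (A * B - B * A) 0 0 0 = bk A 0 0 0 * bk B 0 0 0 - bk B 0 0 0 * bk A 0 0 0
      rw [bk_mul, bk_mul]
      have h4 : ∀ a b : Matrix (Fin n) (Fin n) ℂ, bk a 0 0 (0 : Matrix (Fin q) (Fin q) ℂ) - bk b 0 0 0 = bk (a - b) 0 0 0 := by
        intro a b
        have := map_sub (Dh n q) (a, 0) (b, 0)
        simpa [Dh] using this.symm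
      simp only [Matrix.mul_zero, Matrix.zero_mul, add_zero, zero_add]
      rw [h4]
    · -- the rows
      set R : Submodule ℂ (Fin n → ℂ) := Submodule.span ℂ {v | ∃ (r : Fin n → ℂ) (N : Matrix (Fin n) (Fin n) ℂ), N ∈ 𝒩 ∧ v = r ᵥ* N}
        with hR
      have hRtop : R = ⊤ := by
        by_contra hne
        obtain ⟨l, hl0, hl⟩ := Submodule.exists_le_ker_of_lt_top R (lt_top_iff_ne_top.2 hne)
        set z : Fin n → ℂ := fun i => l (Pi.single i 1) with hz
        have hlz : ∀ v, l v = v ⬝ᵥ z := by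
          intro v
          conv_lhs => rw [show v = ∑ i, v i • (Pi.single i (1 : ℂ) : Fin n → ℂ) from by
            funext j
            rw [Finset.sum_apply, Finset.sum_eq_single j]
            · simp
            · intro c _ hc
              simp [Pi.single_eq_of_ne (Ne.symm hc)]
            · intro h
              exact absurd (Finset.mem_univ _) h]
          rw [map_sum]
          refine Finset.sum_congr rfl fun i _ => ?_
          rw [map_smul, smul_eq_mul]
        have hz0 : z = 0 := by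
          refine hf z fun N hN => ?_
          funext i
          have h5 : l (Pi.single i 1 ᵥ* N) = 0 := hl (Submodule.subset_span ⟨_, N, hN, rfl⟩)
          rw [hlz, ← dotProduct_mulVec, single_one_dotProduct] at h5
          exact h5
        apply hl0
        refine LinearMap.ext fun v => ?_
        rw [hlz, hz0, dotProduct_zero]
        rfl
      have key : ∀ (j : Fin q) (ρ : Fin n → ℂ), bk (0 : Matrix (Fin n) (Fin n) ℂ) 0 (row1 j ρ) 0 ∈ Submodule.span ℂ
          {C : Matrix (Fin (n + q)) (Fin (n + q)) ℂ | ∃ A ∈ ({M | ∃ N ∈ 𝒩, M = bk N 0 0 0} ∪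
            {M | ∃ x : Matrix (Fin q) (Fin n) ℂ, M = bk 0 0 x 0} : Set (Matrix (Fin (n + q)) (Fin (n + q)) ℂ)),
            ∃ B ∈ ({M | ∃ N ∈ 𝒩, M = bk N 0 0 0} ∪
            {M | ∃ x : Matrix (Fin q) (Fin n) ℂ, M = bk 0 0 x 0} : Set (Matrix (Fin (n + q)) (Fin (n + q)) ℂ)), C = A * B - B * A} := by
        intro j ρ
        let φ : (Fin n → ℂ) →ₗ[ℂ] Matrix (Fin (n + q)) (Fin (n + q)) ℂ :=
          { toFun := fun ρ => bk 0 0 (row1 j ρ) 0
            map_add' := fun a b => by
              rw [bk_add]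
              simp only [add_zero]
              congr 1
              ext i c
              unfold row1
              simp only [Matrix.of_apply, Matrix.add_apply, Pi.add_apply]
              split_ifs <;> simp
            map_smul' := fun c a => by
              rw [RingHom.id_apply, bk_smul]
              simp only [smul_zero]
              congr 1
              ext i c
              unfold row1
              simp only [Matrix.of_apply, Matrix.smul_apply, Pi.smul_apply]
              split_ifs <;> simp }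
        have h3 : φ ρ ∈ Submodule.map φ R := Submodule.mem_map_of_mem (by rw [hRtop]; trivial)
        rw [hR, Submodule.map_span] at h3
        refine Submodule.span_mono ?_ h3
        rintro _ ⟨_, ⟨r, N, hN, rfl⟩, rfl⟩
        refine ⟨_, Or.inr ⟨row1 j r, rfl⟩, _, Or.inl ⟨N, hN, rfl⟩, ?_⟩
        show bk 0 0 (row1 j (r ᵥ* N)) 0 = _
        rw [bk_mul, bk_mul, row1_vecMul]
        simp only [Matrix.mul_zero, Matrix.zero_mul, add_zero, zero_add]
        rw [bk_zero, sub_zero]
      have h6 : bk (0 : Matrix (Fin n) (Fin n) ℂ) 0 x 0 = ∑ j, bk (0 : Matrix (Fin n) (Fin n) ℂ) 0 (row1 j (x j)) 0 := by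
        let ψ : Matrix (Fin q) (Fin n) ℂ →ₗ[ℂ] Matrix (Fin (n + q)) (Fin (n + q)) ℂ :=
          { toFun := fun x => bk 0 0 x 0
            map_add' := fun a b => by rw [bk_add]; simp
            map_smul' := fun c a => by rw [RingHom.id_apply, bk_smul]; simp }
        show ψ x = ∑ j, ψ (row1 j (x j))
        rw [← map_sum, ← sum_row1]
      rw [h6]
      exact Submodule.sum_mem _ fun j _ => key j (x j)
  · rintro S hS _ ⟨g, x, hg, rfl⟩
    have h1 : bk g 0 x (1 : Matrix (Fin q) (Fin q) ℂ) = bk g 0 0 1 * bk 1 0 x 1 := by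
      rw [bk_mul]
      simp
    rw [h1]
    refine S.mul_mem ?_ ?_
    · let S' : Submonoid (Matrix (Fin n) (Fin n) ℂ) :=
        { carrier := {a | bk a 0 0 (1 : Matrix (Fin q) (Fin q) ℂ) ∈ S}
          one_mem' := by
            show bk 1 0 0 1 ∈ S
            rw [bk_one]
            exact S.one_mem
          mul_mem' := by
            intro a b ha hb
            show bk (a * b) 0 0 1 ∈ S
            have h2 : bk (a * b) 0 0 (1 : Matrix (Fin q) (Fin q) ℂ) = bk a 0 0 1 * bk b 0 0 1 := by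
              rw [bk_mul]
              simp
            rw [h2]
            exact S.mul_mem ha hb }
      refine h.gen S' ?_ g hg
      intro N hN t
      show bk _ 0 0 1 ∈ S
      rw [← bk_exp (h.nil N hN)]
      exact hS _ (Or.inl ⟨N, hN, rfl⟩) t
    · have h2 := hS _ (Or.inr ⟨x, rfl⟩) 1
      rw [lo_exp, one_smul] at h2
      exact h2

/-- faithfulness, alternating forms -/
lemma faith_skew {P : Matrix (Fin n) (Fin n) ℂ} (hdet : P.det ≠ 0) (z : Fin n → ℂ)
    (h : ∀ N ∈ {N | ∃ v, N = nv P⁻¹ v}, N *ᵥ z = 0) : z = 0 := by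
  by_contra hz
  have hi : (P⁻¹).det ≠ 0 := inv_det hdet
  obtain ⟨v, hv⟩ : ∃ v : Fin n → ℂ, v ⬝ᵥ (P⁻¹ *ᵥ z) ≠ 0 := by
    by_contra hcon
    push Not at hcon
    apply hz
    refine Matrix.eq_zero_of_mulVec_eq_zero hi ?_
    funext i
    have := hcon (Pi.single i 1)
    rwa [single_one_dotProduct] at this
  have h1 := h _ ⟨v, rfl⟩
  unfold nv at h1
  rw [vecMulVec_mulVec, ← dotProduct_mulVec] at h1
  have h2 : v = 0 := by
    funext i
    have h3 := congrFun h1 i
    rw [Pi.smul_apply, op_smul_eq_smul, smul_eq_mul, Pi.zero_apply] at h3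
    exact (mul_eq_zero.1 h3).resolve_left hv
  rw [h2, zero_dotProduct] at hv
  exact hv rfl

/-- faithfulness, symmetric forms -/
lemma faith_symm {J : Matrix (Fin n) (Fin n) ℂ} (hJ : J.transpose = J) (hdet : J.det ≠ 0) (hn : 3 ≤ n) (z : Fin n → ℂ)
    (h : ∀ N ∈ NS J, N *ᵥ z = 0) : z = 0 := by
  by_contra hz
  -- an isotropic vector
  obtain ⟨u, huu, huz⟩ : ∃ u, om J u u = 0 ∧ om J u z ≠ 0 := by
    by_cases hzz : om J z z = 0
    · obtain ⟨f, hf⟩ := ex_dual hdet hz
      have hfz : om J f z = 1 := by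
        rw [← hf]
        exact om_symm hJ _ _
      refine ⟨f - (om J f f / 2) • z, ?_, ?_⟩
      · rw [om_sub, om_sub_left, om_sub_left, om_smul, om_smul, om_smul_left, om_smul_left, hzz, hfz, hf]
        ring
      · rw [om_sub_left, om_smul_left, hzz, hfz]
        simp
    · obtain ⟨b, hb⟩ := ex_aniso hJ hdet hn z z (fun x => x - (om J z x / om J z z) • z) (fun a b => by
          show a + b - (om J z (a + b) / om J z z) • z = (a - (om J z a / om J z z) • z) + (b - (om J z b / om J z z) • z)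
          rw [om_add]
          ext i
          simp only [Pi.sub_apply, Pi.add_apply, Pi.smul_apply, smul_eq_mul]
          ring) (fun x => by
          have h1 : om J (x - (om J z x / om J z z) • z) z = 0 := by
            rw [om_sub_left, om_smul_left, om_symm hJ x z]
            field_simp
            ring
          exact ⟨h1, h1⟩) fun x => ⟨om J z x / om J z z, 0, by
            ext i
            simp⟩
      set b' := b - (om J z b / om J z z) • z with hb'
      have hzb : om J z b' = 0 := by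
        rw [hb', om_sub, om_smul]
        field_simp
        ring
      have hbz : om J b' z = 0 := by
        rw [← hzb]
        exact om_symm hJ _ _
      obtain ⟨c, hc'⟩ := IsAlgClosed.exists_pow_nat_eq (-(om J z z) / om J b' b') (n := 2) (by norm_num)
      have hc := hc'.symm
      refine ⟨z + c • b', ?_, ?_⟩
      · rw [om_add, om_add_left, om_add_left, om_smul, om_smul, om_smul_left, om_smul_left, hzb, hbz]
        have h2 : c * (c * om J b' b') = -(om J z z) := by
          have h3 : c * (c * om J b' b') = c ^ 2 * om J b' b' := by ring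
          rw [h3, ← hc]
          field_simp
        linear_combination h2
      · rw [om_add_left, om_smul_left, hbz, mul_zero, add_zero]
        exact hzz
  -- all vectors are in a plane
  have h5 : ∀ x : Fin n → ℂ, x ∈ Submodule.span ℂ {z, u} := by
    intro x
    have hw : om J u (x - (om J u x / om J u z) • z) = 0 := by
      rw [om_sub, om_smul]
      field_simp
      ring
    have h1 := h _ ⟨u, _, huu, hw, rfl⟩
    rw [nu_mulVec] at h1
    set w := x - (om J u x / om J u z) • z with hwd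
    rw [Submodule.mem_span_pair]
    refine ⟨om J u x / om J u z, om J w z / om J u z, ?_⟩
    funext i
    have h2 := congrFun h1 i
    simp only [Pi.sub_apply, Pi.smul_apply, smul_eq_mul, Pi.zero_apply, Pi.add_apply] at h2 ⊢
    have h3 : w i = x i - (om J u x / om J u z) * z i := rfl
    rw [h3] at h2
    have h4 : om J u z * (om J u z)⁻¹ = 1 := mul_inv_cancel₀ huz
    rw [div_eq_mul_inv] at h2 ⊢
    rw [div_eq_mul_inv]
    linear_combination (-(om J u z)⁻¹) * h2 + (x i - om J u x * (om J u z)⁻¹ * z i) * h4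
  have h6 := finrank_span_le_card (R := ℂ) ({z, u} : Set (Fin n → ℂ))
  have h7 : Submodule.span ℂ {z, u} = ⊤ := by
    rw [eq_top_iff]
    intro x _
    exact h5 x
  rw [h7, finrank_top, Module.finrank_fin_fun] at h6
  have h8 : ({z, u} : Set (Fin n → ℂ)).toFinset.card ≤ 2 := by
    rw [Set.toFinset_insert, Set.toFinset_singleton]
    exact Finset.card_le_two
  omega

end Run7.h893.NT
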